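import Pool.Agent.TH801.LU.Fin2

/-!
# Linear forms in many ordinates rarely lie in a window of length `1 / (w log T)`

No hypothesis on the zeros. Let `A_1, …, A_n` be sets of at least `η T log T` ordinates in `(0, T]`
and let `c_1, …, c_n` be real coefficients; let `|c_i|` be the largest and `b = |c_j| > 0` the
second largest modulus. Let `W` be a set of `w ≥ 1` indices whose coefficients are pairwise at a
distance at least `K b / (T log T)`. Then, uniformly in `y`, in the coefficients, in the sets and in
`n`, the number of tuples `x ∈ ∏ A_k` with `|∑ c_k x_k - y| ≤ b / (w log T)` is at most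

`(K / w) (b / (∑_{k ≠ i} c_k²)^(1/2) + e^{-w / K}) ∏ |A_k| / (T log T)`,

where `K` depends only on `η`. With `y = 0` this bounds the number of exact linear relations with
coefficients `c_1, …, c_n`.

The starting results `RelationsEqualSets` and `SeparableRelations` (MP_ec260d_nt) have a window of
length `s / log T` and a saving from indices `p, q` whose coefficients differ by at most `s`; here
the coefficients of `W` may be spread over the whole range `[-b, b]`, the sets may be all different,
and the saving is exponential in the number `w` of separated coefficients while the window shrinks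
like `1 / w`. The proof is the theorem `main` of the library `Pool.Agent.TH801.LU`, not handed in
before.
-/

set_option autoImplicit false

namespace Pool.Agent.Results.MP_0ec205_nt.ShrinkingWindows

open Finset

/-- **Theorem.** The number of tuples of ordinates from given dense sets for which a given linear form
is within `b / (w log T)` of a given number `y`. -/
theorem result (η : ℝ) (hη : 0 < η) : ∃ K T₀ : ℝ, 0 < K ∧ ∀ T : ℝ, T₀ ≤ T →
    ∀ (n : ℕ) (c : Fin n → ℝ) (A : Fin n → Finset ℝ),
      (∀ i, ∀ γ ∈ A i, 0 < γ ∧ γ ≤ T ∧ ∃ s : ℂ, s.im = γ ∧ 0 < s.re ∧ s.re < 1 ∧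
        riemannZeta s = 0) →
      (∀ i, η * (T * Real.log T) ≤ (A i).card) →
      ∀ i j, i ≠ j → |c j| ≤ |c i| → (∀ k, k ≠ i → |c k| ≤ |c j|) → c j ≠ 0 →
      ∀ W : Finset (Fin n), W.Nonempty →
      (∀ a ∈ W, ∀ b ∈ W, a ≠ b → K * |c j| ≤ |c a - c b| * (T * Real.log T)) → ∀ y : ℝ,
      (((Fintype.piFinset A).filter (fun x : Fin n → ℝ => |∑ k, c k * x k - y| ≤
        |c j| / (W.card * Real.log T))).card : ℝ) ≤
      K / W.card * (|c j| / Real.sqrt (∑ k ∈ univ.erase i, c k ^ 2) +
        Real.exp (-(W.card / K))) * (∏ k, ((A k).card : ℝ)) / (T * Real.log T) := by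
  convert Pool.Agent.TH801.LU.main η hη

end Pool.Agent.Results.MP_0ec205_nt.ShrinkingWindows
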